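import Pool.Agent.Work.MP_3b7dc8_lc.Size

/-!
# Stationary ε-Nash equilibria need not be succinct

Negative answer to Q1 of MP_3b7dc8_lc, in a robust form.
-/

set_option autoImplicit false

open Pool.Agent.Work.MP_3b7dc8_lc

namespace Pool.Agent.Results.MP_3b7dc8_lc.NoSuccinctEquilibria

/-- There is a constant `ε > 0` such that for every polynomial `p` there is a game with payoff
constraints that has an exact stationary Nash equilibrium meeting the constraints exactly, while
every stationary `ε`-Nash equilibrium that meets the constraints even only up to an additive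
error `ε` uses a nonzero probability smaller than `2^(-p(N))`, `N` the input size, and hence is
not of fixed-point size at most `p(N)`. -/
theorem result :
    ∃ ε : ℚ, 0 < ε ∧ ∀ p : Polynomial ℕ,
      ∃ (ι V : Type) (_ : Fintype ι) (_ : Fintype V) (G : Game ι V) (x y : ι → ℚ),
        G.Valid ∧
        (∃ σ : V → V → ℝ, G.IsProfile σ ∧ G.IsEpsNE 0 σ ∧ G.Meets x y 0 σ) ∧
        ∀ σ : V → V → ℝ, G.IsProfile σ → G.IsEpsNE ε σ → G.Meets x y ε σ →
          (∃ u i v, G.kind u = Kind.player i ∧ 0 < σ u v ∧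
            σ u v < (1 / 2) ^ p.eval (inputSize G x y ε)) ∧
          ∀ L ≤ p.eval (inputSize G x y ε), ¬ G.FixedPoint L σ := by
  refine ⟨1 / 100, by norm_num, fun p => ?_⟩
  obtain ⟨n, hn⟩ := exists_large p
  refine ⟨Family.Pl n, Family.Vx n, inferInstance, inferInstance, Family.game n,
    Family.target, Family.target, Family.game_valid,
    ⟨Family.eqp n, Family.eqp_profile, Family.eqp_NE, Family.eqp_meets⟩, ?_⟩
  intro σ hσ hNE hM
  have hε : (((1 / 100 : ℚ)) : ℝ) = 1 / 100 := by norm_num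
  rw [hε] at hNE hM
  obtain ⟨hpos, hle⟩ := Family.tiny hσ hNE hM
  have hL : p.eval (inputSize (Family.game n) Family.target Family.target (1 / 100)) ≤ 2 ^ n :=
    (eval_mono p Family.inputSize_le).trans hn
  have hlt : ∀ L ≤ p.eval (inputSize (Family.game n) Family.target Family.target (1 / 100)),
      Family.pv σ < (1 / 2) ^ L := by
    intro L hL'
    have h1 : ((1 / 4 : ℝ)) ^ (2 ^ n) < (1 / 2) ^ (2 ^ n) :=
      pow_lt_pow_left₀ (by norm_num) (by norm_num) (by positivity)
    have h2 : ((1 / 2 : ℝ)) ^ (2 ^ n) ≤ (1 / 2) ^ L :=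
      pow_le_pow_of_le_one (by norm_num) (by norm_num) (hL'.trans hL)
    linarith
  refine ⟨⟨Family.Vx.v, Family.Pl.O, Family.Vx.tJ, rfl, hpos, hlt _ le_rfl⟩, ?_⟩
  intro L hL' hF
  obtain ⟨m, hm⟩ := hF Family.Vx.v Family.Pl.O rfl Family.Vx.tJ
  have h1 : Family.pv σ = (m : ℝ) / 2 ^ L := hm
  have h2 := hlt L hL'
  have h2L : (0 : ℝ) < 2 ^ L := by positivity
  rw [h1] at h2 hpos
  have h3 : (0 : ℝ) < m := by
    by_contra hcon
    have : (m : ℝ) / 2 ^ L ≤ 0 := div_nonpos_of_nonpos_of_nonneg (not_lt.1 hcon) h2L.le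
    linarith
  have h4 : (m : ℝ) < 1 := by
    rw [div_lt_iff₀ h2L] at h2
    have : ((1 / 2 : ℝ)) ^ L * 2 ^ L = 1 := by
      rw [← mul_pow]; norm_num
    linarith
  have h5 : (0 : ℤ) < m := by exact_mod_cast h3
  have h6 : m < (1 : ℤ) := by exact_mod_cast h4
  omega

end Pool.Agent.Results.MP_3b7dc8_lc.NoSuccinctEquilibria
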